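import Pool.Agent.Helper4.T7.StD

/-!
# Project T7, module REL: the relation between the five plane functions of a symbol
-/

set_option autoImplicit false

namespace Pool.Agent.Helper8.T7

open Pool.Agent.Helper4.T7
open Pool.Agent.Helper14.CV (Homog)
open Pool.Agent.Helper14.W5 (tr5)
open Pool.Agent.Helper28.T7 (HTy SymH)

/-- Scalar multiples of the vector do not matter. -/
private lemma rel_sc {R : Type} {G : ℤ → ℤ → R} (hG : Homog G) (X Y k u1 u2 : ℤ) (hk : k ≠ 0)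
    (hu : u1 ≠ 0 ∨ u2 ≠ 0) :
    G (k * u1 + X * (k * u2)) (5 * Y * (k * u1) + (1 + 5 * X * Y) * (k * u2)) =
      G (u1 + X * u2) (5 * Y * u1 + (1 + 5 * X * Y) * u2) := by
  have hne : (1 * u1 + X * u2 ≠ 0 ∨ (5 * Y) * u1 + (1 + 5 * X * Y) * u2 ≠ 0) :=
    Pool.Agent.Helper14.CV.ne_zero_of_det (a := 1) (b := X) (c := 5 * Y) (d := 1 + 5 * X * Y)
      (by ring_nf; norm_num) hu
  rw [one_mul] at hne
  rw [← hG k _ _ hk hne]
  congr 1 <;> ring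

/-- REL: the plane functions of a symbol satisfy the relation. -/
theorem hRel (ht : TTre) : TRel := by
  intro R _ r s G hG
  have k0 : (pfQ G 0 : ZMod (5 ^ r) → ZMod (5 ^ s) → R) = edgeQ 1 0 0 1 G := by
    funext x y; rfl
  have k1 : (pfQ G 1 : ZMod (5 ^ r) → ZMod (5 ^ s) → R) = edgeQ 2 7 0 1 G := by
    funext x y; rfl
  have k2 : (pfQ G 2 : ZMod (5 ^ r) → ZMod (5 ^ s) → R) = edgeQ 1 3 2 7 G := by
    funext x y; rfl
  have k3 : (pfQ G 3 : ZMod (5 ^ r) → ZMod (5 ^ s) → R) = edgeQ 1 2 3 7 G := by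
    funext x y; rfl
  have k4 : (pfQ G 4 : ZMod (5 ^ r) → ZMod (5 ^ s) → R) = edgeQ 2 3 4 7 G := by
    funext x y; rfl
  intro x y
  have h0 := ht R _ r s G hG 1 1 0 1 1 0 0 1 (by unfold HTy; decide) (by simp) (by simp) x y
  have h1 := ht R _ r s G hG 14 (-3) 7 (-7) 2 7 0 1 (by unfold HTy; decide) (by simp) (by simp) x y
  have h2 := ht R _ r s G hG 19 (-6) 7 (-11) 1 3 2 7 (by unfold HTy; decide) (by simp) (by simp) x y
  have h3 := ht R _ r s G hG 24 (-11) 7 (-16) 1 2 3 7 (by unfold HTy; decide) (by simp) (by simp) x y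
  have h4 := ht R _ r s G hG 28 (-17) 7 (-21) 2 3 4 7 (by unfold HTy; decide) (by simp) (by simp) x y
  have n1 := rel_sc hG.1 (x.val : ℤ) (yQ x y) 7 1 3 (by norm_num) (by simp)
  have n2 := rel_sc hG.1 (x.val : ℤ) (yQ x y) (-1) 3 7 (by norm_num) (by simp)
  have n3 := rel_sc hG.1 (x.val : ℤ) (yQ x y) (-1) 4 7 (by norm_num) (by simp)
  have n4 := rel_sc hG.1 (x.val : ℤ) (yQ x y) (-1) 5 7 (by norm_num) (by simp)
  have n5 := rel_sc hG.1 (x.val : ℤ) (yQ x y) (-7) 1 1 (by norm_num) (by simp)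
  show (pfQ G 0 : ZMod (5 ^ r) → ZMod (5 ^ s) → R) x y - tr5 1 1 0 1 (pfQ G 0) x y -
    ((pfQ G 1 : ZMod (5 ^ r) → ZMod (5 ^ s) → R) x y - tr5 14 (-3) 7 (-7) (pfQ G 1) x y) -
    ((pfQ G 2 : ZMod (5 ^ r) → ZMod (5 ^ s) → R) x y - tr5 19 (-6) 7 (-11) (pfQ G 2) x y) -
    ((pfQ G 3 : ZMod (5 ^ r) → ZMod (5 ^ s) → R) x y - tr5 24 (-11) 7 (-16) (pfQ G 3) x y) -
    ((pfQ G 4 : ZMod (5 ^ r) → ZMod (5 ^ s) → R) x y - tr5 28 (-17) 7 (-21) (pfQ G 4) x y) = 0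
  rw [k0, k1, k2, k3, k4, ← h0, ← h1, ← h2, ← h3, ← h4]
  unfold edgeQ
  norm_num at n1 n2 n3 n4 n5 ⊢
  rw [n1, n2, n3, n4, n5]
  abel

end Pool.Agent.Helper8.T7
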